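import Pool.Agent.Helper68.T3.GoalsT

/-!
# Project T3 (MP_a41896_nt): packet FXP, fixed points in the power series ring
-/

set_option autoImplicit false

namespace Pool.Agent.Helper9.T3.FXP

open Pool.Agent.Helper42.SG

/-- The iterates of `Φ`. -/
noncomputable def Y {K : Type} [Field K] {τ : Type} (Φ : MvPowerSeries τ K → MvPowerSeries τ K) :
    ℕ → MvPowerSeries τ K
  | 0 => 0
  | k + 1 => Φ (Y Φ k)

theorem t_FXP : Pool.Agent.Helper68.T3.FXP := by
  intro K _ τ Φ hΦ hcon
  have hc : ∀ k, MvPowerSeries.constantCoeff (Y Φ k) = 0 := by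
    intro k
    induction k with
    | zero => exact map_zero _
    | succ k ih => exact hΦ _ ih
  have hA : ∀ (k : ℕ) (α : τ →₀ ℕ), α.degree < k + 1 →
      MvPowerSeries.coeff α (Y Φ (k + 1)) = MvPowerSeries.coeff α (Y Φ k) := by
    intro k
    induction k with
    | zero =>
      intro α hα
      have h0 : α = 0 := by
        have : α.degree = 0 := by omega
        exact (Finsupp.degree_eq_zero_iff α).1 this
      rw [h0, MvPowerSeries.coeff_zero_eq_constantCoeff_apply,
        MvPowerSeries.coeff_zero_eq_constantCoeff_apply, hc, hc]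
    | succ k ih =>
      intro α hα
      exact hcon (k + 1) (Y Φ (k + 1)) (Y Φ k) (hc _) (hc _) ih α hα
  have hB : ∀ (α : τ →₀ ℕ) (k : ℕ), α.degree ≤ k →
      MvPowerSeries.coeff α (Y Φ k) = MvPowerSeries.coeff α (Y Φ α.degree) := by
    intro α k hk
    induction k, hk using Nat.le_induction with
    | base => rfl
    | succ k hk ih => rw [hA k α (by omega), ih]
  let y : MvPowerSeries τ K := fun α => MvPowerSeries.coeff α (Y Φ α.degree)
  have hy : ∀ α, MvPowerSeries.coeff α y = MvPowerSeries.coeff α (Y Φ α.degree) := fun _ => rfl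
  have hy0 : MvPowerSeries.constantCoeff y = 0 := by
    rw [← MvPowerSeries.coeff_zero_eq_constantCoeff_apply, hy,
      MvPowerSeries.coeff_zero_eq_constantCoeff_apply, hc]
  refine ⟨y, hy0, ?_, ?_⟩
  · refine MvPowerSeries.ext fun α => ?_
    have h1 := hcon α.degree y (Y Φ α.degree) hy0 (hc _)
      (fun β hβ => by rw [hy, hB β α.degree hβ.le]) α (Nat.lt_succ_self _)
    rw [h1, hy]
    exact hA α.degree α (Nat.lt_succ_self _)
  · intro v r T hr hT hN
    have hk : ∀ k, NPS v r (Y Φ k) T := by
      intro k
      induction k with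
      | zero =>
        refine ⟨hT, fun _ α => ?_, fun _ S => ?_⟩
        · have h0 : MvPowerSeries.coeff α (Y Φ 0) = 0 := map_zero _
          rw [h0, map_zero, zero_mul]
          exact hT
        · refine (Finset.sum_nonpos fun α _ => ?_).trans hT
          have h0 : MvPowerSeries.coeff α (Y Φ 0) = 0 := map_zero _
          rw [h0, map_zero, zero_mul]
      | succ k ih => exact hN _ (hc k) ih
    refine ⟨hT, fun hv α => ?_, fun hv S => ?_⟩
    · rw [hy]
      exact (hk α.degree).2.1 hv α
    · have h1 := (hk (S.sup Finsupp.degree)).2.2 hv S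
      refine le_trans (le_of_eq ?_) h1
      refine Finset.sum_congr rfl fun α hα => ?_
      rw [hy, hB α (S.sup Finsupp.degree) (Finset.le_sup (f := Finsupp.degree) hα)]

end Pool.Agent.Helper9.T3.FXP
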